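import Mathlib

set_option autoImplicit false

namespace Pool.Agent.H2.Sig

open Finset

theorem K3
    (U1 : ∀ (D x : ℕ) (_ : 1 ≤ D) (δ : ℝ) (_ : 0 < δ), (((Finset.Icc 1 x).filter (fun n : ℕ => δ ≤ ∑ d ∈ n.divisors.filter (fun d : ℕ => D < d), (1:ℝ)/(d:ℝ))).card : ℝ) * δ ≤ x / D)
    (U2 : ∀ (N L a : ℕ) (_ : 1 ≤ L) (u v : ℝ) (_ : u ≤ v), (((Finset.range N).filter (fun n => n % L = a ∧ u < (n:ℝ) ∧ (n:ℝ) < v)).card : ℝ) ≤ (v - u) / L + 1)
    (U3 : ∀ (n D : ℕ) (_ : 1 ≤ n) (_ : 1 ≤ D), ((n:ℝ) + ((ArithmeticFunction.sigma 1 n : ℕ) : ℝ)) = n * (1 + ∑ d ∈ (Finset.Icc 1 D).filter (fun d => d ∣ n % (D.factorial)), (1:ℝ)/d + ∑ d ∈ n.divisors.filter (fun d => D < d), (1:ℝ)/d)) :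
    ∀ δ : ℝ, 0 < δ → δ ≤ 1 → ∃ X0 : ℕ, ∀ x : ℕ, X0 ≤ x → (Nat.card {n : ℕ // (x : ℝ) < (n : ℝ) + ((ArithmeticFunction.sigma 1 n : ℕ) : ℝ) ∧ (n : ℝ) + ((ArithmeticFunction.sigma 1 n : ℕ) : ℝ) < (x : ℝ) + δ * x} : ℝ) ≤ 3 * δ * x := by
  intro δ h0 h1
  obtain ⟨D0, hD0⟩ := exists_nat_ge (4 / δ ^ 2)
  set D := D0 + 1 with hD
  have hDR : 4 / δ ^ 2 ≤ (D : ℝ) := by rw [hD]; push_cast; linarith
  have hD1 : 1 ≤ D := by omega
  have hDpos : (0 : ℝ) < D := by exact_mod_cast hD1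
  set L := D.factorial with hL
  have hL1 : 1 ≤ L := Nat.factorial_pos D
  have hLpos : (0 : ℝ) < L := by exact_mod_cast hL1
  obtain ⟨X0, hX0⟩ := exists_nat_ge ((L : ℝ) / δ)
  refine ⟨X0, fun x hx => ?_⟩
  have hxL : (L : ℝ) ≤ δ * x := by
    have : (X0 : ℝ) ≤ x := by exact_mod_cast hx
    have h2 := hX0.trans this
    rw [div_le_iff₀ h0] at h2; linarith
  have hxR : (0 : ℝ) ≤ x := Nat.cast_nonneg _
  set s : ℕ → ℝ := fun r => ∑ d ∈ (Finset.Icc 1 D).filter (fun d => d ∣ r), (1:ℝ)/d with hs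
  have hs0 : ∀ r, 0 ≤ s r := fun r => Finset.sum_nonneg fun d _ => by positivity
  have hs1 : ∀ r, 1 ≤ s r := by
    intro r
    have hm : 1 ∈ (Finset.Icc 1 D).filter (fun d => d ∣ r) := by
      rw [Finset.mem_filter, Finset.mem_Icc]; exact ⟨⟨le_rfl, hD1⟩, one_dvd _⟩
    have := Finset.single_le_sum (f := fun d : ℕ => (1:ℝ)/d) (fun d _ => by positivity) hm
    simpa [hs] using this
  set u : ℕ → ℝ := fun r => x / (1 + s r + δ / 2) with hu
  set v : ℕ → ℝ := fun r => (1 + δ) * x / (1 + s r) with hv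
  set T1 := (Finset.Icc 1 x).filter (fun n : ℕ => δ / 2 ≤ ∑ d ∈ n.divisors.filter (fun d : ℕ => D < d), (1:ℝ)/(d:ℝ)) with hT1
  set T2 : ℕ → Finset ℕ := fun r => (Finset.range (x + 1)).filter (fun n => n % L = r ∧ u r < (n:ℝ) ∧ (n:ℝ) < v r) with hT2
  have hsub : {n : ℕ | (x : ℝ) < (n : ℝ) + ((ArithmeticFunction.sigma 1 n : ℕ) : ℝ) ∧ (n : ℝ) + ((ArithmeticFunction.sigma 1 n : ℕ) : ℝ) < (x : ℝ) + δ * x} ⊆
      ((T1 ∪ (range L).biUnion T2 : Finset ℕ) : Set ℕ) := by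
    rintro n ⟨hn1, hn2⟩
    have hnpos : 1 ≤ n := by
      by_contra h
      have : n = 0 := by omega
      subst this
      simp at hn1
      linarith
    have hnR : (0 : ℝ) < n := by exact_mod_cast hnpos
    rw [U3 n D hnpos hD1] at hn1 hn2
    have hs' : ∑ d ∈ (Finset.Icc 1 D).filter (fun d => d ∣ n % (D.factorial)), (1:ℝ)/d = s (n % L) := rfl
    rw [hs'] at hn1 hn2
    set t := ∑ d ∈ n.divisors.filter (fun d => D < d), (1:ℝ)/d with ht
    have ht0 : 0 ≤ t := Finset.sum_nonneg fun d _ => by positivity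
    have hs1' := hs1 (n % L)
    have hnx : n ≤ x := by
      have e1 : (n : ℝ) * 2 ≤ n * (1 + s (n % L) + t) := mul_le_mul_of_nonneg_left (by linarith) hnR.le
      have e2 : δ * (x : ℝ) ≤ 1 * x := mul_le_mul_of_nonneg_right h1 hxR
      have : (n : ℝ) ≤ x := by linarith
      exact_mod_cast this
    rw [Finset.mem_coe, Finset.mem_union]
    by_cases htt : δ / 2 ≤ t
    · left
      rw [hT1, Finset.mem_filter, Finset.mem_Icc]
      exact ⟨⟨hnpos, hnx⟩, htt⟩
    · right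
      push Not at htt
      rw [Finset.mem_biUnion]
      refine ⟨n % L, Finset.mem_range.2 (Nat.mod_lt _ hL1), ?_⟩
      rw [hT2]
      simp only [Finset.mem_filter, Finset.mem_range]
      refine ⟨by omega, trivial, ?_, ?_⟩
      · rw [hu]; simp only
        rw [div_lt_iff₀ (by linarith)]
        have : (n : ℝ) * (1 + s (n % L) + t) ≤ n * (1 + s (n % L) + δ / 2) := mul_le_mul_of_nonneg_left (by linarith) hnR.le
        linarith
      · rw [hv]; simp only
        rw [lt_div_iff₀ (by linarith)]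
        have : (n : ℝ) * (1 + s (n % L)) ≤ n * (1 + s (n % L) + t) := mul_le_mul_of_nonneg_left (by linarith) hnR.le
        linarith
  have hcard : (Nat.card {n : ℕ // (x : ℝ) < (n : ℝ) + ((ArithmeticFunction.sigma 1 n : ℕ) : ℝ) ∧ (n : ℝ) + ((ArithmeticFunction.sigma 1 n : ℕ) : ℝ) < (x : ℝ) + δ * x} : ℝ)
      ≤ ((T1 ∪ (range L).biUnion T2).card : ℝ) := by
    have h2 := Set.ncard_le_ncard hsub (Finset.finite_toSet _)
    rw [Set.ncard_coe_finset] at h2
    exact_mod_cast h2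
  have hT1c : (T1.card : ℝ) ≤ δ / 2 * x := by
    have h2 := U1 D x hD1 (δ / 2) (by linarith)
    rw [← hT1] at h2
    have h3 : (x : ℝ) / D ≤ (δ / 2 * x) * (δ / 2) := by
      rw [div_le_iff₀ hDpos]
      rw [div_le_iff₀ (by positivity)] at hDR
      nlinarith
    have h4 := h2.trans h3
    exact le_of_mul_le_mul_right h4 (by linarith)
  have hT2c : ∀ r, ((T2 r).card : ℝ) ≤ (x * (δ + δ / 2)) / L + 1 := by
    intro r
    have hsr := hs0 r
    have p1 : 0 < 1 + s r := by linarith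
    have p2 : 0 < 1 + s r + δ / 2 := by linarith
    have huv : u r ≤ v r := by
      rw [hu, hv]; simp only
      rw [div_le_div_iff₀ p2 p1]
      have : 0 ≤ (x : ℝ) * (δ * (1 + s r) + (1 + δ) * (δ / 2)) := by positivity
      nlinarith
    have h2 := U2 (x + 1) L r hL1 (u r) (v r) huv
    refine h2.trans ?_
    have h3 : v r - u r ≤ x * (δ + δ / 2) := by
      have e1 : v r ≤ x / (1 + s r) + x * δ := by
        rw [hv]; simp only
        rw [div_add' _ _ _ p1.ne', div_le_div_iff_of_pos_right p1]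
        have : 0 ≤ x * δ * s r := by positivity
        nlinarith
      have e2 : x / (1 + s r) ≤ u r + x * (δ / 2) := by
        rw [hu]; simp only
        rw [div_add' _ _ _ p2.ne', div_le_div_iff₀ p1 p2]
        have : 0 ≤ x * (δ / 2) * ((1 + s r + δ / 2) * (1 + s r) - 1) := by
          apply mul_nonneg (by positivity)
          nlinarith
        nlinarith
      linarith
    have := div_le_div_of_nonneg_right h3 hLpos.le
    linarith
  have hU : (((range L).biUnion T2).card : ℝ) ≤ x * (δ + δ / 2) + L := by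
    have h2 : (((range L).biUnion T2).card : ℝ) ≤ ∑ r ∈ range L, ((T2 r).card : ℝ) := by
      exact_mod_cast Finset.card_biUnion_le
    refine h2.trans ((Finset.sum_le_sum fun r _ => hT2c r).trans ?_)
    rw [Finset.sum_const, Finset.card_range, nsmul_eq_mul]
    have : (L : ℝ) * (x * (δ + δ / 2) / L + 1) = x * (δ + δ / 2) + L := by field_simp
    rw [this]
  have hun : ((T1 ∪ (range L).biUnion T2).card : ℝ) ≤ (T1.card : ℝ) + (((range L).biUnion T2).card : ℝ) := by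
    exact_mod_cast Finset.card_union_le _ _
  linarith

end Pool.Agent.H2.Sig
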