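import Mathlib

set_option autoImplicit false

namespace Pool.Agent.H2.Sig

theorem U2 (N L a : ℕ) (hL : 1 ≤ L) (u v : ℝ) (huv : u ≤ v) :
    (((Finset.range N).filter (fun n => n % L = a ∧ u < (n:ℝ) ∧ (n:ℝ) < v)).card : ℝ)
      ≤ (v - u) / L + 1 := by
  have hLr : (0 : ℝ) < L := by exact_mod_cast hL
  set S := (Finset.range N).filter (fun n => n % L = a ∧ u < (n:ℝ) ∧ (n:ℝ) < v) with hS
  rcases S.eq_empty_or_nonempty with h | h
  · rw [h, Finset.card_empty]
    have : 0 ≤ (v - u) / L := div_nonneg (by linarith) hLr.le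
    push_cast
    linarith
  · obtain ⟨m, hm⟩ : ∃ m, m = S.min' h := ⟨_, rfl⟩
    obtain ⟨M, hM⟩ : ∃ M, M = S.max' h := ⟨_, rfl⟩
    have hmS : m ∈ S := by rw [hm]; exact Finset.min'_mem S h
    have hMS : M ∈ S := by rw [hM]; exact Finset.max'_mem S h
    have hprop : ∀ n ∈ S, n % L = a ∧ u < (n:ℝ) ∧ (n:ℝ) < v := fun n hn => (Finset.mem_filter.mp hn).2
    have hinj : Set.InjOn (fun n => n / L) (S : Set ℕ) := by
      intro x hx y hy hxy
      have h1 := (hprop x hx).1
      have h2 := (hprop y hy).1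
      have h3 : x / L = y / L := hxy
      rw [← Nat.div_add_mod x L, ← Nat.div_add_mod y L, h1, h2, h3]
    have hcard : S.card ≤ (Finset.Icc (m / L) (M / L)).card := by
      refine Finset.card_le_card_of_injOn (fun n => n / L) ?_ hinj
      intro n hn
      rw [Finset.mem_coe, Finset.mem_Icc]
      constructor
      · apply Nat.div_le_div_right
        rw [hm]; exact Finset.min'_le S n hn
      · apply Nat.div_le_div_right
        rw [hM]; exact Finset.le_max' S n hn
    rw [Nat.card_Icc] at hcard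
    have hle : m / L ≤ M / L := by
      apply Nat.div_le_div_right
      rw [hm]; exact Finset.min'_le S M hMS
    have e1 := Nat.div_add_mod m L
    have e2 := Nat.div_add_mod M L
    rw [(hprop m hmS).1] at e1
    rw [(hprop M hMS).1] at e2
    have e1' : (L:ℝ) * ((m / L : ℕ) : ℝ) + a = m := by exact_mod_cast e1
    have e2' : (L:ℝ) * ((M / L : ℕ) : ℝ) + a = M := by exact_mod_cast e2
    have h3 : (L:ℝ) * (((M / L : ℕ) : ℝ) - ((m / L : ℕ) : ℝ)) < v - u := by
      have := (hprop m hmS).2.1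
      have := (hprop M hMS).2.2
      linarith
    have h4 : (((M / L : ℕ) : ℝ) - ((m / L : ℕ) : ℝ)) ≤ (v - u) / L := by
      rw [le_div_iff₀ hLr]; linarith
    have h5 : (S.card : ℝ) ≤ ((M / L + 1 - m / L : ℕ) : ℝ) := by exact_mod_cast hcard
    rw [Nat.cast_sub (by omega)] at h5
    push_cast at h5 ⊢
    linarith

end Pool.Agent.H2.Sig
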