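import Mathlib

set_option autoImplicit false

namespace Pool.Agent.H2.Sig

theorem U3 (n D : ℕ) (hn : 1 ≤ n) (hD : 1 ≤ D) :
    ((n:ℝ) + ((ArithmeticFunction.sigma 1 n : ℕ) : ℝ)) =
      n * (1 + ∑ d ∈ (Finset.Icc 1 D).filter (fun d => d ∣ n % (D.factorial)), (1:ℝ)/d
        + ∑ d ∈ n.divisors.filter (fun d => D < d), (1:ℝ)/d) := by
  have hn0 : (n : ℝ) ≠ 0 := by positivity
  have h1 : ((ArithmeticFunction.sigma 1 n : ℕ) : ℝ) = ∑ d ∈ n.divisors, (n : ℝ) * (1 / d) := by
    rw [ArithmeticFunction.sigma_one_apply]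
    rw [← Nat.sum_div_divisors n (fun d => d)]
    push_cast
    refine Finset.sum_congr rfl fun d hd => ?_
    have hdn := Nat.dvd_of_mem_divisors hd
    have hd0 : (d : ℝ) ≠ 0 := by
      have := Nat.pos_of_mem_divisors hd
      positivity
    rw [Nat.cast_div hdn hd0]
    ring
  have h2 : (Finset.Icc 1 D).filter (fun d => d ∣ n % (D.factorial)) =
      n.divisors.filter (fun d => ¬ D < d) := by
    ext d
    simp only [Finset.mem_filter, Finset.mem_Icc, Nat.mem_divisors]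
    constructor
    · rintro ⟨⟨a, b⟩, c⟩
      have hdD : d ∣ D.factorial := Nat.dvd_factorial (by omega) b
      exact ⟨⟨(Nat.dvd_mod_iff hdD).1 c, by omega⟩, by omega⟩
    · rintro ⟨⟨a, b⟩, c⟩
      have hd0 : 0 < d := Nat.pos_of_dvd_of_pos a (by omega)
      have hdD : d ∣ D.factorial := Nat.dvd_factorial hd0 (by omega)
      exact ⟨⟨by omega, by omega⟩, (Nat.dvd_mod_iff hdD).2 a⟩
  rw [h1, h2, ← Finset.mul_sum,
    ← Finset.sum_filter_add_sum_filter_not n.divisors (fun d => D < d) (fun d => (1:ℝ)/d)]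
  ring

end Pool.Agent.H2.Sig
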