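import Pool.Agent.H2.Sig.U1
import Pool.Agent.H2.Sig.U2
import Pool.Agent.H2.Sig.U3

set_option autoImplicit false

namespace Pool.Agent.H2.Sig

open Finset

/-- truncated divisor sum as a function of the residue -/
noncomputable def ss (D a : ℕ) : ℝ := ∑ d ∈ (Finset.Icc 1 D).filter (fun d => d ∣ a), (1:ℝ)/d

/-- tail of the divisor sum -/
noncomputable def tt (D n : ℕ) : ℝ := ∑ d ∈ n.divisors.filter (fun d => D < d), (1:ℝ)/d

lemma ss_ge (D a : ℕ) (hD : 1 ≤ D) : 1 ≤ ss D a := by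
  unfold ss
  have h1 : (1 : ℕ) ∈ (Finset.Icc 1 D).filter (fun d => d ∣ a) := by
    simp [hD]
  have h2 := Finset.single_le_sum (f := fun d : ℕ => (1:ℝ)/d)
    (fun d _ => by positivity) h1
  simpa using h2

lemma tt_nonneg (D n : ℕ) : 0 ≤ tt D n := Finset.sum_nonneg fun d _ => by positivity

theorem K (δ : ℝ) (h0 : 0 < δ) (h1 : δ ≤ 1) : ∃ X0 : ℕ, ∀ x : ℕ, X0 ≤ x →
    (Nat.card {n : ℕ // (x : ℝ) < (n : ℝ) + ((ArithmeticFunction.sigma 1 n : ℕ) : ℝ) ∧
      (n : ℝ) + ((ArithmeticFunction.sigma 1 n : ℕ) : ℝ) < (x : ℝ) + δ * x} : ℝ) ≤ 3 * δ * x := by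
  obtain ⟨D, hD⟩ : ∃ D : ℕ, D = ⌈1 / δ ^ 2⌉₊ := ⟨_, rfl⟩
  have hDr : 1 / δ ^ 2 ≤ (D : ℝ) := by rw [hD]; exact Nat.le_ceil _
  have hd2 : 0 < δ ^ 2 := by positivity
  have hD0 : (0 : ℝ) < D := lt_of_lt_of_le (by positivity) hDr
  have hD1 : 1 ≤ D := by exact_mod_cast hD0
  obtain ⟨L, hL⟩ : ∃ L : ℕ, L = D.factorial := ⟨_, rfl⟩
  have hL1 : 1 ≤ L := by rw [hL]; exact Nat.factorial_pos D
  have hLr : (0 : ℝ) < L := by exact_mod_cast hL1
  refine ⟨⌈(L : ℝ) / δ⌉₊ + 1, fun x hx => ?_⟩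
  have hxr : (L : ℝ) ≤ δ * x := by
    have h2 : (L : ℝ) / δ ≤ x := (Nat.le_ceil _).trans (by exact_mod_cast (by omega))
    rw [div_le_iff₀ h0] at h2
    linarith
  have hx0 : (0 : ℝ) < x := by
    have : 0 < x := by omega
    exact_mod_cast this
  set B : Finset ℕ := (Finset.Icc 1 x).filter (fun n => δ ≤ tt D n) with hB
  set u : ℕ → ℝ := fun a => x / (1 + ss D a + δ) with hu
  set v : ℕ → ℝ := fun a => (1 + δ) * x / (1 + ss D a) with hv
  set Ra : ℕ → Finset ℕ := fun a =>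
    (Finset.range x).filter (fun n => n % L = a ∧ u a < (n:ℝ) ∧ (n:ℝ) < v a) with hRa
  have hBcard : (B.card : ℝ) ≤ δ * x := by
    have h2 : (B.card : ℝ) * δ ≤ x / D := U1 D x hD1 δ h0
    have h3 : (x : ℝ) / D ≤ δ ^ 2 * x := by
      rw [div_le_iff₀ hD0]
      have h4 : 1 ≤ δ ^ 2 * D := by
        rw [div_le_iff₀ hd2] at hDr
        linarith
      nlinarith
    have h5 : (B.card : ℝ) * δ ≤ (δ * x) * δ := by
      calc (B.card : ℝ) * δ ≤ δ ^ 2 * x := h2.trans h3
        _ = (δ * x) * δ := by ring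
    exact le_of_mul_le_mul_right h5 h0
  have hRcard : ∀ a, ((Ra a).card : ℝ) ≤ δ * x / L + 1 := by
    intro a
    have hs := ss_ge D a hD1
    have p1 : 0 < 1 + ss D a := by linarith
    have p2 : 0 < 1 + ss D a + δ := by linarith
    have hle : v a - u a ≤ δ * x := by
      simp only [hu, hv]
      rw [div_sub_div _ _ p1.ne' p2.ne', div_le_iff₀ (mul_pos p1 p2)]
      have q1 : 0 ≤ δ * x := by positivity
      have q3 : (1 + ss D a) + 1 + δ ≤ (1 + ss D a) * (1 + ss D a + δ) := by nlinarith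
      have q4 := mul_le_mul_of_nonneg_left q3 q1
      have e : (1 + δ) * x * (1 + ss D a + δ) - (1 + ss D a) * x =
          δ * x * ((1 + ss D a) + 1 + δ) := by ring
      linarith
    have huv : u a ≤ v a := by
      simp only [hu, hv]
      rw [div_le_div_iff₀ p2 p1]
      nlinarith
    have h2 := U2 x L a hL1 (u a) (v a) huv
    have h3 : (v a - u a) / L ≤ δ * x / L := div_le_div_of_nonneg_right hle hLr.le
    linarith
  have hsub : {n : ℕ | (x : ℝ) < (n : ℝ) + ((ArithmeticFunction.sigma 1 n : ℕ) : ℝ) ∧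
      (n : ℝ) + ((ArithmeticFunction.sigma 1 n : ℕ) : ℝ) < (x : ℝ) + δ * x} ⊆
      ((B ∪ (Finset.range L).biUnion Ra : Finset ℕ) : Set ℕ) := by
    rintro n ⟨hn1, hn2⟩
    have hnpos : 1 ≤ n := by
      rcases Nat.eq_zero_or_pos n with rfl | h
      · exfalso
        simp at hn1
        linarith
      · exact h
    have hnr : (0 : ℝ) < n := by exact_mod_cast hnpos
    have key := U3 n D hnpos hD1
    rw [← hL] at key
    change _ = (n : ℝ) * (1 + ss D (n % L) + tt D n) at key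
    rw [key] at hn1 hn2
    have hs := ss_ge D (n % L) hD1
    have ht := tt_nonneg D n
    have hnx : n < x := by
      have : (n : ℝ) < x := by
        have h2 : (n : ℝ) * 2 ≤ n * (1 + ss D (n % L) + tt D n) :=
          mul_le_mul_of_nonneg_left (by linarith) hnr.le
        nlinarith
      exact_mod_cast this
    rw [Finset.coe_union, Set.mem_union]
    by_cases hc : δ ≤ tt D n
    · left
      simp only [hB, Finset.coe_filter, Finset.mem_Icc]
      exact ⟨⟨hnpos, hnx.le⟩, hc⟩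
    · right
      push Not at hc
      have p1 : 0 < 1 + ss D (n % L) := by linarith
      have p2 : 0 < 1 + ss D (n % L) + δ := by linarith
      rw [Finset.mem_coe, Finset.mem_biUnion]
      refine ⟨n % L, Finset.mem_range.2 (Nat.mod_lt _ hL1), ?_⟩
      show n ∈ (Finset.range x).filter (fun m => m % L = n % L ∧ u (n % L) < (m:ℝ) ∧ (m:ℝ) < v (n % L))
      rw [Finset.mem_filter]
      refine ⟨Finset.mem_range.2 hnx, rfl, ?_, ?_⟩
      · simp only [hu]
        rw [div_lt_iff₀ p2]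
        have : (n : ℝ) * (1 + ss D (n % L) + tt D n) ≤ n * (1 + ss D (n % L) + δ) :=
          mul_le_mul_of_nonneg_left (by linarith) hnr.le
        linarith
      · simp only [hv]
        rw [lt_div_iff₀ p1]
        have : (n : ℝ) * (1 + ss D (n % L)) ≤ n * (1 + ss D (n % L) + tt D n) :=
          mul_le_mul_of_nonneg_left (by linarith) hnr.le
        linarith
  have hcard : Nat.card {n : ℕ // (x : ℝ) < (n : ℝ) + ((ArithmeticFunction.sigma 1 n : ℕ) : ℝ) ∧
      (n : ℝ) + ((ArithmeticFunction.sigma 1 n : ℕ) : ℝ) < (x : ℝ) + δ * x} ≤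
      (B ∪ (Finset.range L).biUnion Ra).card := by
    have h2 := Set.ncard_le_ncard hsub (Finset.finite_toSet _)
    rw [Set.ncard_coe_finset] at h2
    exact h2
  have hc2 : ((B ∪ (Finset.range L).biUnion Ra).card : ℝ) ≤ 3 * δ * x := by
    have e1 : (B ∪ (Finset.range L).biUnion Ra).card ≤ B.card + ∑ a ∈ Finset.range L, (Ra a).card :=
      (Finset.card_union_le _ _).trans (Nat.add_le_add_left Finset.card_biUnion_le _)
    have e2 : ((B ∪ (Finset.range L).biUnion Ra).card : ℝ) ≤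
        (B.card : ℝ) + ∑ a ∈ Finset.range L, ((Ra a).card : ℝ) := by exact_mod_cast e1
    have e3 : ∑ a ∈ Finset.range L, ((Ra a).card : ℝ) ≤ ∑ a ∈ Finset.range L, (δ * x / L + 1) :=
      Finset.sum_le_sum fun a _ => hRcard a
    rw [Finset.sum_const, Finset.card_range, nsmul_eq_mul] at e3
    have e4 : (L : ℝ) * (δ * x / L + 1) = δ * x + L := by
      field_simp
    linarith
  have : (Nat.card {n : ℕ // (x : ℝ) < (n : ℝ) + ((ArithmeticFunction.sigma 1 n : ℕ) : ℝ) ∧
      (n : ℝ) + ((ArithmeticFunction.sigma 1 n : ℕ) : ℝ) < (x : ℝ) + δ * x} : ℝ) ≤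
      ((B ∪ (Finset.range L).biUnion Ra).card : ℝ) := by exact_mod_cast hcard
  exact this.trans hc2

end Pool.Agent.H2.Sig
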