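import Mathlib

set_option autoImplicit false

namespace Pool.Agent.H2.Sig.Kb

theorem vu (x δ t : ℝ) (hx : 0 ≤ x) (hδ : 0 < δ) (ht : 2 ≤ t) :
    (1 + δ) * x / t - x / (t + δ) ≤ δ * x := by
  have h1 : 0 < t := by linarith
  have h2 : 0 < t + δ := by linarith
  rw [div_sub_div _ _ h1.ne' h2.ne', div_le_iff₀ (by positivity)]
  have h3 : δ * (1 + t + δ) ≤ δ * (t * (t + δ)) := by
    apply mul_le_mul_of_nonneg_left _ hδ.le
    nlinarith
  nlinarith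

theorem K
  (U1 : ∀ (D x : ℕ) (hD : 1 ≤ D) (δ : ℝ) (hδ : 0 < δ), (((Finset.Icc 1 x).filter (fun n : ℕ => δ ≤ ∑ d ∈ n.divisors.filter (fun d : ℕ => D < d), (1:ℝ)/d)).card : ℝ) * δ ≤ x / D)
  (U2 : ∀ (N L a : ℕ) (hL : 1 ≤ L) (u v : ℝ) (huv : u ≤ v), (((Finset.range N).filter (fun n => n % L = a ∧ u < (n:ℝ) ∧ (n:ℝ) < v)).card : ℝ) ≤ (v - u) / L + 1)
  (U3 : ∀ (n D : ℕ) (hn : 1 ≤ n) (hD : 1 ≤ D), ((n:ℝ) + ((ArithmeticFunction.sigma 1 n : ℕ) : ℝ)) = n * (1 + ∑ d ∈ (Finset.Icc 1 D).filter (fun d => d ∣ n % (D.factorial)), (1:ℝ)/d + ∑ d ∈ n.divisors.filter (fun d : ℕ => D < d), (1:ℝ)/d))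
  (δ : ℝ) (hδ : 0 < δ) (hδ1 : δ ≤ 1) : ∃ X0 : ℕ, ∀ x : ℕ, X0 ≤ x → (Nat.card {n : ℕ // (x : ℝ) < (n : ℝ) + ((ArithmeticFunction.sigma 1 n : ℕ) : ℝ) ∧ (n : ℝ) + ((ArithmeticFunction.sigma 1 n : ℕ) : ℝ) < (x : ℝ) + δ * x} : ℝ) ≤ 3 * δ * x := by
  obtain ⟨D0, hD0⟩ := exists_nat_ge (1 / δ ^ 2)
  obtain ⟨D, hDD⟩ : ∃ D, D = D0 + 1 := ⟨_, rfl⟩
  have hD1 : 1 ≤ D := by omega
  have hDr : 1 / δ ^ 2 ≤ (D : ℝ) := by rw [hDD]; push_cast; linarith
  obtain ⟨L, hL⟩ : ∃ L, L = D.factorial := ⟨_, rfl⟩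
  have hL1 : 1 ≤ L := by rw [hL]; exact Nat.factorial_pos D
  have hLr : (0 : ℝ) < L := by exact_mod_cast hL1
  obtain ⟨X0, hX0⟩ := exists_nat_ge ((L : ℝ) / δ)
  refine ⟨X0 + 1, fun x hx => ?_⟩
  have hx1 : 1 ≤ x := by omega
  have hxr : (0 : ℝ) < x := by exact_mod_cast hx1
  have hLx : (L : ℝ) ≤ δ * x := by
    have h1 : (L : ℝ) / δ ≤ x := hX0.trans (by exact_mod_cast (by omega : X0 ≤ x))
    rw [div_le_iff₀ hδ] at h1
    linarith
  obtain ⟨A, hA⟩ : ∃ A : ℕ → ℝ, A = fun a => ∑ d ∈ (Finset.Icc 1 D).filter (fun d => d ∣ a), (1:ℝ)/d := ⟨_, rfl⟩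
  have hA1 : ∀ a, 1 ≤ A a := by
    intro a
    rw [hA]
    have h1 : (1 : ℕ) ∈ (Finset.Icc 1 D).filter (fun d => d ∣ a) := by simp [hD1]
    have := Finset.single_le_sum (f := fun d : ℕ => (1:ℝ)/d) (fun i _ => by positivity) h1
    simpa using this
  obtain ⟨u, hu⟩ : ∃ u : ℕ → ℝ, u = fun a => (x : ℝ) / (1 + A a + δ) := ⟨_, rfl⟩
  obtain ⟨v, hv⟩ : ∃ v : ℕ → ℝ, v = fun a => (1 + δ) * (x : ℝ) / (1 + A a) := ⟨_, rfl⟩
  obtain ⟨T, hT⟩ : ∃ T, T = ((Finset.Icc 1 x).filter (fun n : ℕ => δ ≤ ∑ d ∈ n.divisors.filter (fun d : ℕ => D < d), (1:ℝ)/d)) := ⟨_, rfl⟩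
  obtain ⟨R, hR⟩ : ∃ R : ℕ → Finset ℕ, R = fun a => (Finset.range (x + 1)).filter (fun n => n % L = a ∧ u a < (n:ℝ) ∧ (n:ℝ) < v a) := ⟨_, rfl⟩
  have hsub : ∀ n : ℕ, ((x : ℝ) < (n : ℝ) + ((ArithmeticFunction.sigma 1 n : ℕ) : ℝ) ∧ (n : ℝ) + ((ArithmeticFunction.sigma 1 n : ℕ) : ℝ) < (x : ℝ) + δ * x) → n ∈ T ∪ (Finset.range L).biUnion R := by
    rintro n ⟨h1, h2⟩
    have hn1 : 1 ≤ n := by
      rcases Nat.eq_zero_or_pos n with h | h
      · subst h; simp at h1; linarith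
      · exact h
    have hnr : (0 : ℝ) < n := by exact_mod_cast hn1
    have e := U3 n D hn1 hD1
    rw [← hL] at e
    have eA : ∑ d ∈ (Finset.Icc 1 D).filter (fun d => d ∣ n % L), (1:ℝ)/d = A (n % L) := by rw [hA]
    rw [eA] at e
    obtain ⟨B, hB⟩ : ∃ B, B = ∑ d ∈ n.divisors.filter (fun d : ℕ => D < d), (1:ℝ)/d := ⟨_, rfl⟩
    have hB0 : 0 ≤ B := by rw [hB]; exact Finset.sum_nonneg (fun d _ => by positivity)
    rw [← hB] at e
    rw [e] at h1 h2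
    have hAn := hA1 (n % L)
    have hnx : n ≤ x := by
      have : (n : ℝ) * 2 ≤ n * (1 + A (n % L) + B) := by
        apply mul_le_mul_of_nonneg_left _ hnr.le; linarith
      have h3 : (n : ℝ) ≤ x := by nlinarith
      exact_mod_cast h3
    rw [Finset.mem_union]
    by_cases hBδ : δ ≤ B
    · left
      rw [hT, Finset.mem_filter, Finset.mem_Icc]
      exact ⟨⟨hn1, hnx⟩, by rw [← hB]; exact hBδ⟩
    · right
      push Not at hBδ
      rw [Finset.mem_biUnion]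
      refine ⟨n % L, Finset.mem_range.2 (Nat.mod_lt _ hL1), ?_⟩
      rw [hR]
      simp only [Finset.mem_filter, Finset.mem_range]
      refine ⟨by omega, trivial, ?_, ?_⟩
      · rw [hu]
        simp only
        rw [div_lt_iff₀ (by linarith)]
        refine lt_of_lt_of_le h1 ?_
        apply mul_le_mul_of_nonneg_left _ hnr.le; linarith
      · rw [hv]
        simp only
        rw [lt_div_iff₀ (by linarith)]
        have : (n : ℝ) * (1 + A (n % L)) ≤ n * (1 + A (n % L) + B) := by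
          apply mul_le_mul_of_nonneg_left _ hnr.le; linarith
        linarith
  have hcard : Nat.card {n : ℕ // (x : ℝ) < (n : ℝ) + ((ArithmeticFunction.sigma 1 n : ℕ) : ℝ) ∧ (n : ℝ) + ((ArithmeticFunction.sigma 1 n : ℕ) : ℝ) < (x : ℝ) + δ * x} ≤ (T ∪ (Finset.range L).biUnion R).card := by
    have := Nat.card_mono (T ∪ (Finset.range L).biUnion R).finite_toSet (s := {n : ℕ | (x : ℝ) < (n : ℝ) + ((ArithmeticFunction.sigma 1 n : ℕ) : ℝ) ∧ (n : ℝ) + ((ArithmeticFunction.sigma 1 n : ℕ) : ℝ) < (x : ℝ) + δ * x}) (fun n hn => hsub n hn)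
    refine le_trans this ?_
    rw [Nat.card_eq_fintype_card]
    simp
  have hT1 : (T.card : ℝ) ≤ δ * x := by
    have h1 := U1 D x hD1 δ hδ
    rw [← hT] at h1
    have hDpos : (0 : ℝ) < D := by exact_mod_cast hD1
    have h2 : (x : ℝ) / D ≤ δ ^ 2 * x := by
      rw [div_le_iff₀ hDpos]
      rw [div_le_iff₀ (by positivity)] at hDr
      nlinarith
    have h3 : (T.card : ℝ) * δ ≤ (δ * x) * δ := by nlinarith
    exact le_of_mul_le_mul_right h3 hδ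
  have hR1 : ∀ a ∈ Finset.range L, ((R a).card : ℝ) ≤ δ * x / L + 1 := by
    intro a _
    have hAa := hA1 a
    have hvu := vu x δ (1 + A a) hxr.le hδ (by linarith)
    have huv : u a ≤ v a := by
      rw [hu, hv]
      simp only
      rw [div_le_div_iff₀ (by linarith) (by linarith)]
      nlinarith [mul_pos hδ hxr, mul_pos (mul_pos hδ hxr) (by linarith : 0 < A a)]
    have h1 := U2 (x + 1) L a hL1 (u a) (v a) huv
    rw [hR]
    refine le_trans h1 ?_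
    have : (v a - u a) / L ≤ δ * x / L := by
      apply div_le_div_of_nonneg_right _ hLr.le
      rw [hu, hv]
      exact hvu
    linarith
  have hbi : ((((Finset.range L).biUnion R).card : ℕ) : ℝ) ≤ δ * x + L := by
    have h1 : (((Finset.range L).biUnion R).card : ℝ) ≤ ((∑ a ∈ Finset.range L, (R a).card : ℕ) : ℝ) := by
      exact_mod_cast Finset.card_biUnion_le
    refine le_trans h1 ?_
    push_cast
    refine le_trans (Finset.sum_le_sum hR1) ?_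
    rw [Finset.sum_const, Finset.card_range, nsmul_eq_mul]
    have : (L : ℝ) * (δ * x / L + 1) = δ * x + L := by field_simp
    linarith
  have hfin : (((T ∪ (Finset.range L).biUnion R).card : ℕ) : ℝ) ≤ T.card + ((Finset.range L).biUnion R).card := by
    exact_mod_cast Finset.card_union_le _ _
  have hc' : ((Nat.card {n : ℕ // (x : ℝ) < (n : ℝ) + ((ArithmeticFunction.sigma 1 n : ℕ) : ℝ) ∧ (n : ℝ) + ((ArithmeticFunction.sigma 1 n : ℕ) : ℝ) < (x : ℝ) + δ * x} : ℕ) : ℝ) ≤ ((T ∪ (Finset.range L).biUnion R).card : ℕ) := by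
    exact_mod_cast hcard
  linarith

end Pool.Agent.H2.Sig.Kb
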