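import Mathlib

set_option autoImplicit false

namespace Pool.Agent.H2.Sig

theorem U1_tail (D x : ℕ) (hD : 1 ≤ D) : ∑ d ∈ Finset.Ioc D x, (((d : ℝ) ^ 2)⁻¹) ≤ 1 / D := by
  have hDp : (0 : ℝ) < D := by exact_mod_cast hD
  by_cases h : D ≤ x
  · have h1 := sum_Ioc_inv_sq_le_sub (α := ℝ) (k := D) (n := x) (by omega) h
    have h2 : (0 : ℝ) ≤ (x : ℝ)⁻¹ := by positivity
    rw [one_div]
    linarith
  · rw [Finset.Ioc_eq_empty (by omega), Finset.sum_empty]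
    positivity

theorem U1 (D x : ℕ) (hD : 1 ≤ D) (δ : ℝ) (hδ : 0 < δ) : (((Finset.Icc 1 x).filter (fun n : ℕ => δ ≤ ∑ d ∈ n.divisors.filter (fun d : ℕ => D < d), (1:ℝ)/d)).card : ℝ) * δ ≤ x / D := by
  have hnn : ∀ n : ℕ, 0 ≤ ∑ d ∈ n.divisors.filter (fun d : ℕ => D < d), (1:ℝ)/d :=
    fun n => Finset.sum_nonneg (fun d _ => by positivity)
  have h1 : ∀ n ∈ Finset.Icc 1 x, ∑ d ∈ n.divisors.filter (fun d : ℕ => D < d), (1:ℝ)/d
      = ∑ d ∈ Finset.Ioc D x, if d ∣ n then (1:ℝ)/d else 0 := by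
    intro n hn
    rw [Finset.mem_Icc] at hn
    rw [← Finset.sum_filter]
    apply Finset.sum_congr _ (fun _ _ => rfl)
    ext d
    simp only [Finset.mem_filter, Nat.mem_divisors, Finset.mem_Ioc]
    constructor
    · rintro ⟨⟨h1, h2⟩, h3⟩
      exact ⟨⟨h3, (Nat.le_of_dvd (by omega) h1).trans hn.2⟩, h1⟩
    · rintro ⟨⟨h1, h2⟩, h3⟩
      exact ⟨⟨h3, by omega⟩, h1⟩
  have h2 : (((Finset.Icc 1 x).filter (fun n : ℕ => δ ≤ ∑ d ∈ n.divisors.filter (fun d : ℕ => D < d), (1:ℝ)/d)).card : ℝ) * δ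
      ≤ ∑ n ∈ Finset.Icc 1 x, ∑ d ∈ n.divisors.filter (fun d : ℕ => D < d), (1:ℝ)/d := by
    rw [← nsmul_eq_mul]
    refine le_trans (Finset.card_nsmul_le_sum _ (fun n : ℕ => ∑ d ∈ n.divisors.filter (fun d : ℕ => D < d), (1:ℝ)/d) δ ?_) ?_
    · intro n hn
      exact (Finset.mem_filter.1 hn).2
    · exact Finset.sum_le_sum_of_subset_of_nonneg (Finset.filter_subset _ _) (fun n _ _ => hnn n)
  refine le_trans h2 ?_
  rw [Finset.sum_congr rfl h1, Finset.sum_comm]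
  have h3 : ∀ d ∈ Finset.Ioc D x, (∑ n ∈ Finset.Icc 1 x, if d ∣ n then (1:ℝ)/d else 0) ≤ x * ((d : ℝ) ^ 2)⁻¹ := by
    intro d hd
    rw [Finset.mem_Ioc] at hd
    have hdp : (0 : ℝ) < d := by exact_mod_cast (by omega : 0 < d)
    rw [← Finset.sum_filter, Finset.sum_const, nsmul_eq_mul]
    have e : (Finset.Icc 1 x).filter (fun n => d ∣ n) = (Finset.Ioc 0 x).filter (fun n => d ∣ n) := by
      ext n; simp only [Finset.mem_filter, Finset.mem_Icc, Finset.mem_Ioc]; omega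
    rw [e, Nat.Ioc_filter_dvd_card_eq_div]
    have h4 : ((x / d : ℕ) : ℝ) ≤ (x : ℝ) / d := Nat.cast_div_le
    calc ((x / d : ℕ) : ℝ) * (1 / d) ≤ (x : ℝ) / d * (1 / d) := by
          apply mul_le_mul_of_nonneg_right h4; positivity
      _ = x * ((d : ℝ) ^ 2)⁻¹ := by field_simp
  refine le_trans (Finset.sum_le_sum h3) ?_
  rw [← Finset.mul_sum]
  calc (x : ℝ) * ∑ d ∈ Finset.Ioc D x, ((d : ℝ) ^ 2)⁻¹ ≤ x * (1 / D) :=
        mul_le_mul_of_nonneg_left (U1_tail D x hD) (by positivity)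
    _ = x / D := by ring

end Pool.Agent.H2.Sig
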