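import Mathlib

set_option autoImplicit false
open Filter Topology

namespace Pool.Agent.H2.Sig


theorem U4 (K : ∀ δ : ℝ, 0 < δ → δ ≤ 1 → ∃ X0 : ℕ, ∀ x : ℕ, X0 ≤ x →
      (Nat.card {n : ℕ // (x : ℝ) < (n : ℝ) + ((ArithmeticFunction.sigma 1 n : ℕ) : ℝ) ∧
        (n : ℝ) + ((ArithmeticFunction.sigma 1 n : ℕ) : ℝ) < (x : ℝ) + δ * x} : ℝ) ≤ 3 * δ * x) :
    ¬ ∀ F : ℕ → ℝ, Tendsto F atTop atTop →
      (∀ ε : ℝ, 0 < ε →
        Tendsto (fun N : ℕ =>
          (((Finset.range N).filter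
            (fun n => ε ≤ |F n / ((ArithmeticFunction.sigma 1 n : ℕ) : ℝ)|)).card : ℝ) / (N : ℝ))
          atTop (𝓝 0)) →
      ∀ C : ℝ, ∀ N : ℕ, ∃ x : ℕ, N < x ∧
        C * F x < (Nat.card {n : ℕ //
          (x : ℝ) < (n : ℝ) + ((ArithmeticFunction.sigma 1 n : ℕ) : ℝ) ∧
          (n : ℝ) + ((ArithmeticFunction.sigma 1 n : ℕ) : ℝ) < (x : ℝ) + F x} : ℝ) := by
  intro hall
  have hpos : ∀ k : ℕ, (0 : ℝ) < 1 / ((k : ℝ) + 1) := fun k => by positivity
  have hle : ∀ k : ℕ, (1 : ℝ) / ((k : ℝ) + 1) ≤ 1 := fun k => by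
    rw [div_le_one (by positivity)]
    have : (0 : ℝ) ≤ k := Nat.cast_nonneg k
    linarith
  choose X hX using fun k : ℕ => K (1 / ((k : ℝ) + 1)) (hpos k) (hle k)
  let κ : ℕ → ℕ := fun x => Nat.findGreatest (fun k => X k ≤ x) (Nat.sqrt x)
  have hκ1 : ∀ x, κ x ≤ Nat.sqrt x := fun x => Nat.findGreatest_le _
  have hκ2 : ∀ x, X 0 ≤ x → X (κ x) ≤ x := fun x hx =>
    Nat.findGreatest_spec (P := fun k => X k ≤ x) (Nat.zero_le _) hx
  have hκ3 : ∀ m x, m * m ≤ x → X m ≤ x → m ≤ κ x := fun m x h1 h2 =>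
    Nat.le_findGreatest (Nat.le_sqrt.mpr h1) h2
  let F : ℕ → ℝ := fun x => (x : ℝ) / ((κ x : ℝ) + 1)
  have hF0 : ∀ x, 0 ≤ F x := fun x => by simp only [F]; positivity
  have hFs : ∀ x, (Nat.sqrt x : ℝ) / 2 ≤ F x := by
    intro x
    rcases Nat.eq_zero_or_pos (Nat.sqrt x) with h | h
    · rw [h]; simpa using hF0 x
    · simp only [F]
      rw [div_le_div_iff₀ (by norm_num) (by positivity)]
      have h1 : ((κ x : ℕ) : ℝ) ≤ (Nat.sqrt x : ℝ) := by exact_mod_cast hκ1 x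
      have h2 : ((Nat.sqrt x : ℝ)) * (Nat.sqrt x : ℝ) ≤ x := by exact_mod_cast Nat.sqrt_le x
      have h3 : (1 : ℝ) ≤ (Nat.sqrt x : ℝ) := by exact_mod_cast h
      nlinarith
  have hFt : Tendsto F atTop atTop := by
    rw [tendsto_atTop_atTop]
    intro b
    refine ⟨⌈2 * b⌉₊ * ⌈2 * b⌉₊, fun a ha => ?_⟩
    have h1 : ⌈2 * b⌉₊ ≤ Nat.sqrt a := Nat.le_sqrt.mpr ha
    have h2 : 2 * b ≤ (⌈2 * b⌉₊ : ℝ) := Nat.le_ceil _
    have h3 : ((⌈2 * b⌉₊ : ℕ) : ℝ) ≤ (Nat.sqrt a : ℝ) := by exact_mod_cast h1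
    have := hFs a
    linarith
  have hdens : ∀ ε : ℝ, 0 < ε →
        Tendsto (fun N : ℕ =>
          (((Finset.range N).filter
            (fun n => ε ≤ |F n / ((ArithmeticFunction.sigma 1 n : ℕ) : ℝ)|)).card : ℝ) / (N : ℝ))
          atTop (𝓝 0) := by
    intro ε hε
    obtain ⟨m, hm⟩ := exists_nat_gt (1 / ε)
    have hfin : ∀ n, max (m * m) (X m) ≤ n → ¬ ε ≤ |F n / ((ArithmeticFunction.sigma 1 n : ℕ) : ℝ)| := by
      intro n hn hcon
      have h1 := hκ3 m n ((le_max_left _ _).trans hn) ((le_max_right _ _).trans hn)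
      have hm0 : 0 < m := by
        rcases Nat.eq_zero_or_pos m with h | h
        · rw [h] at hm
          have : 0 < 1 / ε := by positivity
          simp at hm; linarith [hm, hε]
        · exact h
      have hn0 : 0 < n := lt_of_lt_of_le (Nat.mul_pos hm0 hm0) ((le_max_left _ _).trans hn)
      have hs : n ≤ ArithmeticFunction.sigma 1 n := by
        rw [ArithmeticFunction.sigma_one_apply]
        exact Finset.single_le_sum (f := fun d => d) (fun _ _ => Nat.zero_le _)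
          (Nat.mem_divisors_self n hn0.ne')
      have hsr : (n : ℝ) ≤ ((ArithmeticFunction.sigma 1 n : ℕ) : ℝ) := by exact_mod_cast hs
      have hnr : (0 : ℝ) < n := by exact_mod_cast hn0
      have hsp : (0 : ℝ) < ((ArithmeticFunction.sigma 1 n : ℕ) : ℝ) := lt_of_lt_of_le hnr hsr
      rw [abs_of_nonneg (div_nonneg (hF0 n) hsp.le)] at hcon
      have h2 : F n / ((ArithmeticFunction.sigma 1 n : ℕ) : ℝ) ≤ 1 / ((κ n : ℝ) + 1) := by
        rw [div_le_iff₀ hsp]
        have e : F n = 1 / ((κ n : ℝ) + 1) * n := by simp only [F]; ring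
        rw [e]
        exact mul_le_mul_of_nonneg_left hsr (by positivity)
      have h3 : (m : ℝ) ≤ (κ n : ℝ) := by exact_mod_cast h1
      have h4 : 1 / ((κ n : ℝ) + 1) < ε := by
        rw [div_lt_iff₀ (by positivity)]
        rw [div_lt_iff₀ hε] at hm
        nlinarith
      linarith
    have hbound : ∀ N : ℕ, ((((Finset.range N).filter
        (fun n => ε ≤ |F n / ((ArithmeticFunction.sigma 1 n : ℕ) : ℝ)|)).card : ℕ) : ℝ) / (N : ℝ)
        ≤ ((max (m * m) (X m) : ℕ) : ℝ) / (N : ℝ) := by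
      intro N
      apply div_le_div_of_nonneg_right _ (Nat.cast_nonneg N)
      have hsub : (Finset.range N).filter
          (fun n => ε ≤ |F n / ((ArithmeticFunction.sigma 1 n : ℕ) : ℝ)|)
          ⊆ Finset.range (max (m * m) (X m)) := by
        intro n hn
        rw [Finset.mem_filter] at hn
        rw [Finset.mem_range]
        by_contra hcon
        exact hfin n (not_lt.mp hcon) hn.2
      have := Finset.card_le_card hsub
      rw [Finset.card_range] at this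
      exact_mod_cast this
    refine squeeze_zero (fun N => by positivity) (fun N => ?_)
      (tendsto_const_div_atTop_nhds_zero_nat ((max (m * m) (X m) : ℕ) : ℝ))
    convert hbound N
  obtain ⟨x, hx, hlt⟩ := hall F hFt hdens 3 (X 0)
  have h1 := hX (κ x) x (hκ2 x hx.le)
  have e : 1 / ((κ x : ℝ) + 1) * (x : ℝ) = F x := by simp only [F]; ring
  have e3 : 3 * (1 / ((κ x : ℝ) + 1)) * (x : ℝ) = 3 * F x := by rw [mul_assoc, e]
  rw [e, e3] at h1
  exact absurd hlt (not_lt.mpr h1)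

end Pool.Agent.H2.Sig
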