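import Mathlib

set_option autoImplicit false
open Filter Topology

namespace Pool.Agent.H2.Sig

lemma u4_sigma (n : ℕ) (hn : 1 ≤ n) : (n : ℝ) ≤ ((ArithmeticFunction.sigma 1 n : ℕ) : ℝ) := by
  have h : n ≤ ArithmeticFunction.sigma 1 n := by
    rw [ArithmeticFunction.sigma_one_apply]
    exact Finset.single_le_sum (f := fun d => d) (fun _ _ => Nat.zero_le _)
      (Nat.mem_divisors_self n (by omega))
  exact_mod_cast h

theorem U4 (K : ∀ δ : ℝ, 0 < δ → δ ≤ 1 → ∃ X0 : ℕ, ∀ x : ℕ, X0 ≤ x →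
    (Nat.card {n : ℕ // (x : ℝ) < (n : ℝ) + ((ArithmeticFunction.sigma 1 n : ℕ) : ℝ) ∧
      (n : ℝ) + ((ArithmeticFunction.sigma 1 n : ℕ) : ℝ) < (x : ℝ) + δ * x} : ℝ) ≤ 3 * δ * x) :
    ¬ ∀ F : ℕ → ℝ, Tendsto F atTop atTop →
      (∀ ε : ℝ, 0 < ε →
        Tendsto (fun N : ℕ =>
          (((Finset.range N).filter
            (fun n => ε ≤ |F n / ((ArithmeticFunction.sigma 1 n : ℕ) : ℝ)|)).card : ℝ) / (N : ℝ))
          atTop (𝓝 0)) →
      ∀ C : ℝ, ∀ N : ℕ, ∃ x : ℕ, N < x ∧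
        C * F x < (Nat.card {n : ℕ //
          (x : ℝ) < (n : ℝ) + ((ArithmeticFunction.sigma 1 n : ℕ) : ℝ) ∧
          (n : ℝ) + ((ArithmeticFunction.sigma 1 n : ℕ) : ℝ) < (x : ℝ) + F x} : ℝ) := by
  classical
  intro H
  have hX : ∀ k : ℕ, ∃ X0 : ℕ, 1 ≤ k → ∀ x : ℕ, X0 ≤ x →
    (Nat.card {n : ℕ // (x : ℝ) < (n : ℝ) + ((ArithmeticFunction.sigma 1 n : ℕ) : ℝ) ∧
      (n : ℝ) + ((ArithmeticFunction.sigma 1 n : ℕ) : ℝ) < (x : ℝ) + (1 / (k : ℝ)) * x} : ℝ)
        ≤ 3 * (1 / (k : ℝ)) * x := by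
    intro k
    by_cases hk : 1 ≤ k
    · have hk' : (1 : ℝ) ≤ k := by exact_mod_cast hk
      obtain ⟨X0, h⟩ := K (1 / (k : ℝ)) (by positivity) (by rw [div_le_one (by positivity)]; exact hk')
      exact ⟨X0, fun _ => h⟩
    · exact ⟨0, fun h => absurd h hk⟩
  choose X hX using hX
  let k : ℕ → ℕ := fun x => Nat.findGreatest (fun k => X k ≤ x) (Nat.sqrt x)
  have hk1 : ∀ K0 x : ℕ, X K0 ≤ x → K0 * K0 ≤ x → K0 ≤ k x := fun K0 x h1 h2 =>
    Nat.le_findGreatest (Nat.le_sqrt.2 h2) h1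
  have hk2 : ∀ x : ℕ, X 1 ≤ x → 1 ≤ x → X (k x) ≤ x := by
    intro x h1 h2
    exact Nat.findGreatest_spec (P := fun k => X k ≤ x) (m := 1) (Nat.le_sqrt.2 (by simpa using h2)) h1
  have hk3 : ∀ x, k x ≤ Nat.sqrt x := fun x => Nat.findGreatest_le _
  let F : ℕ → ℝ := fun x => (1 / ((max (k x) 1 : ℕ) : ℝ)) * x
  have hmpos : ∀ x, (0 : ℝ) < ((max (k x) 1 : ℕ) : ℝ) := by
    intro x
    have : 0 < max (k x) 1 := lt_of_lt_of_le Nat.one_pos (le_max_right _ _)
    exact_mod_cast this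
  have hFsq : ∀ x, ((Nat.sqrt x : ℕ) : ℝ) ≤ F x := by
    intro x
    rcases Nat.eq_zero_or_pos x with rfl | hx
    · simp [F]
    · have hs : 1 ≤ Nat.sqrt x := Nat.le_sqrt.2 (by omega)
      have hm : max (k x) 1 ≤ Nat.sqrt x := max_le (hk3 x) hs
      have h1 : Nat.sqrt x * max (k x) 1 ≤ x :=
        (Nat.mul_le_mul_left _ hm).trans (Nat.sqrt_le x)
      have h2 : ((Nat.sqrt x : ℕ) : ℝ) * ((max (k x) 1 : ℕ) : ℝ) ≤ x := by exact_mod_cast h1
      change ((Nat.sqrt x : ℕ) : ℝ) ≤ (1 / ((max (k x) 1 : ℕ) : ℝ)) * x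
      rw [one_div, inv_mul_eq_div, le_div_iff₀ (hmpos x)]
      exact h2
  have hF1 : Tendsto F atTop atTop := by
    refine tendsto_atTop_mono hFsq ?_
    refine tendsto_natCast_atTop_atTop.comp ?_
    refine tendsto_atTop.2 fun b => ?_
    filter_upwards [eventually_ge_atTop (b * b)] with x hx
    exact Nat.le_sqrt.2 hx
  have hF2 : ∀ ε : ℝ, 0 < ε →
        Tendsto (fun N : ℕ =>
          (((Finset.range N).filter
            (fun n => ε ≤ |F n / ((ArithmeticFunction.sigma 1 n : ℕ) : ℝ)|)).card : ℝ) / (N : ℝ))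
          atTop (𝓝 0) := by
    intro ε hε
    obtain ⟨K0, hK0⟩ := exists_nat_gt (1 / ε)
    have hK0' : 0 < K0 := by
      have : (0 : ℝ) < K0 := lt_trans (by positivity) hK0
      exact_mod_cast this
    set N0 := max (max (X K0) (K0 * K0)) 1 with hN0
    have hsub : ∀ n, N0 ≤ n → ¬ ε ≤ |F n / ((ArithmeticFunction.sigma 1 n : ℕ) : ℝ)| := by
      intro n hn
      have h1 : X K0 ≤ n := ((le_max_left _ _).trans (le_max_left _ _)).trans hn
      have h2 : K0 * K0 ≤ n := ((le_max_right _ _).trans (le_max_left _ _)).trans hn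
      have h3 : 1 ≤ n := (le_max_right _ _).trans hn
      have h4 := hk1 K0 n h1 h2
      have h5 : (K0 : ℝ) ≤ ((max (k n) 1 : ℕ) : ℝ) := by exact_mod_cast h4.trans (le_max_left _ _)
      have hn' : (0 : ℝ) < n := by exact_mod_cast h3
      have hs := u4_sigma n h3
      have hs' : (0 : ℝ) < ((ArithmeticFunction.sigma 1 n : ℕ) : ℝ) := lt_of_lt_of_le hn' hs
      have hK0r : (0 : ℝ) < K0 := by exact_mod_cast hK0'
      rw [not_le, abs_of_nonneg (by positivity), div_lt_iff₀ hs']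
      have h6 : F n ≤ (1 / (K0 : ℝ)) * n := by
        refine mul_le_mul_of_nonneg_right ?_ hn'.le
        exact one_div_le_one_div_of_le hK0r h5
      have h7 : 1 / (K0 : ℝ) < ε := by
        rw [div_lt_iff₀ hK0r]
        rw [div_lt_iff₀ hε] at hK0
        linarith
      calc F n ≤ (1 / (K0 : ℝ)) * n := h6
        _ < ε * n := mul_lt_mul_of_pos_right h7 hn'
        _ ≤ ε * ((ArithmeticFunction.sigma 1 n : ℕ) : ℝ) := mul_le_mul_of_nonneg_left hs hε.le
    have hcard : ∀ N, (((Finset.range N).filter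
            (fun n => ε ≤ |F n / ((ArithmeticFunction.sigma 1 n : ℕ) : ℝ)|)).card : ℝ) ≤ N0 := by
      intro N
      have : ((Finset.range N).filter
            (fun n => ε ≤ |F n / ((ArithmeticFunction.sigma 1 n : ℕ) : ℝ)|)) ⊆ Finset.range N0 := by
        intro n hn
        rw [Finset.mem_filter] at hn
        rw [Finset.mem_range]
        by_contra hcon
        exact hsub n (not_lt.1 hcon) hn.2
      have h := Finset.card_le_card this
      rw [Finset.card_range] at h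
      exact_mod_cast h
    refine squeeze_zero (fun N => by positivity)
      (fun N => div_le_div_of_nonneg_right (hcard N) (Nat.cast_nonneg N)) ?_
    exact tendsto_const_div_atTop_nhds_zero_nat (N0 : ℝ)
  obtain ⟨x, hx1, hx2⟩ := H F hF1 hF2 3 (max (X 1) 1)
  have h1 : X 1 ≤ x := ((le_max_left _ _).trans_lt hx1).le
  have h2 : 1 ≤ x := ((le_max_right _ _).trans_lt hx1).le
  have h3 : 1 ≤ k x := hk1 1 x h1 (by simpa using h2)
  have h4 := hX (k x) h3 x (hk2 x h1 h2)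
  have h5 : F x = (1 / (k x : ℝ)) * x := by
    simp only [F, max_eq_left h3]
  rw [h5] at hx2
  have h6 : 3 * ((1 / (k x : ℝ)) * x) = 3 * (1 / (k x : ℝ)) * x := by ring
  rw [h6] at hx2
  exact absurd h4 (not_le.2 hx2)

end Pool.Agent.H2.Sig
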