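import Mathlib
set_option autoImplicit false
open Filter Topology
namespace Pool.Agent.H2.Sig

theorem U4x (K : ∀ δ : ℝ, 0 < δ → δ ≤ 1 → ∃ X0 : ℕ, ∀ x : ℕ, X0 ≤ x →
    (Nat.card {n : ℕ // (x : ℝ) < (n : ℝ) + ((ArithmeticFunction.sigma 1 n : ℕ) : ℝ) ∧
      (n : ℝ) + ((ArithmeticFunction.sigma 1 n : ℕ) : ℝ) < (x : ℝ) + δ * x} : ℝ) ≤ 3 * δ * x) :
    ¬ ∀ F : ℕ → ℝ, Tendsto F atTop atTop →
      (∀ ε : ℝ, 0 < ε →
        Tendsto (fun N : ℕ =>
          (((Finset.range N).filter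
            (fun n => ε ≤ |F n / ((ArithmeticFunction.sigma 1 n : ℕ) : ℝ)|)).card : ℝ) / (N : ℝ))
          atTop (𝓝 0)) →
      ∀ C : ℝ, ∀ N : ℕ, ∃ x : ℕ, N < x ∧
        C * F x < (Nat.card {n : ℕ //
          (x : ℝ) < (n : ℝ) + ((ArithmeticFunction.sigma 1 n : ℕ) : ℝ) ∧
          (n : ℝ) + ((ArithmeticFunction.sigma 1 n : ℕ) : ℝ) < (x : ℝ) + F x} : ℝ) := by
  intro h
  have hK : ∀ k : ℕ, ∃ X0 : ℕ, ∀ x : ℕ, X0 ≤ x →
    (Nat.card {n : ℕ // (x : ℝ) < (n : ℝ) + ((ArithmeticFunction.sigma 1 n : ℕ) : ℝ) ∧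
      (n : ℝ) + ((ArithmeticFunction.sigma 1 n : ℕ) : ℝ) < (x : ℝ) + (1 / ((k : ℝ) + 1)) * x} : ℝ)
        ≤ 3 * (1 / ((k : ℝ) + 1)) * x := by
    intro k
    refine K (1 / ((k : ℝ) + 1)) (by positivity) ?_
    rw [div_le_one (by positivity)]
    have : (0 : ℝ) ≤ k := Nat.cast_nonneg k
    linarith
  choose X hX using hK
  set kk : ℕ → ℕ := fun x => Nat.findGreatest (fun k => X k ≤ x) (Nat.sqrt x) with hkk
  set F : ℕ → ℝ := fun x => (1 / ((kk x : ℝ) + 1)) * x with hF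
  have hge : ∀ k0 x : ℕ, X k0 ≤ x → k0 ^ 2 ≤ x → k0 ≤ kk x := by
    intro k0 x h1 h2
    exact Nat.le_findGreatest (Nat.le_sqrt'.2 h2) h1
  have hFtop : Tendsto F atTop atTop := by
    have h1 : ∀ x : ℕ, 1 ≤ x → ((Nat.sqrt x : ℕ) : ℝ) / 2 ≤ F x := by
      intro x hx
      have hk : kk x ≤ Nat.sqrt x := Nat.findGreatest_le _
      have hs1 : 1 ≤ Nat.sqrt x := by rw [Nat.le_sqrt']; simpa using hx
      have hk' : ((kk x : ℕ) : ℝ) + 1 ≤ 2 * (Nat.sqrt x : ℝ) := by
        have : kk x + 1 ≤ 2 * Nat.sqrt x := by omega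
        exact_mod_cast this
      have hsq : ((Nat.sqrt x : ℕ) : ℝ) ^ 2 ≤ x := by
        exact_mod_cast Nat.sqrt_le' x
      have hp : (0 : ℝ) < (kk x : ℝ) + 1 := by positivity
      simp only [hF]
      rw [one_div, ← div_eq_inv_mul, le_div_iff₀ hp]
      have hs0 : (0 : ℝ) ≤ Nat.sqrt x := Nat.cast_nonneg _
      nlinarith
    rw [tendsto_atTop]
    intro b
    filter_upwards [eventually_ge_atTop ((2 * ⌈b⌉₊) ^ 2 + 1)] with x hx
    have h2 : 2 * ⌈b⌉₊ ≤ Nat.sqrt x := Nat.le_sqrt'.2 (by omega)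
    have h3 : (2 * (⌈b⌉₊ : ℝ)) ≤ (Nat.sqrt x : ℝ) := by exact_mod_cast h2
    have h4 := h1 x (by omega)
    have h5 := Nat.le_ceil b
    linarith
  have hdens : ∀ ε : ℝ, 0 < ε →
        Tendsto (fun N : ℕ =>
          (((Finset.range N).filter
            (fun n => ε ≤ |F n / ((ArithmeticFunction.sigma 1 n : ℕ) : ℝ)|)).card : ℝ) / (N : ℝ))
          atTop (𝓝 0) := by
    intro ε hε
    obtain ⟨k0, hk0⟩ := exists_nat_one_div_lt hε
    set N0 := max (X k0) (max (k0 ^ 2) 1) with hN0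
    have hsub : ∀ N, (((Finset.range N).filter
            (fun n => ε ≤ |F n / ((ArithmeticFunction.sigma 1 n : ℕ) : ℝ)|)).card : ℝ) ≤ N0 := by
      intro N
      have : ((Finset.range N).filter
            (fun n => ε ≤ |F n / ((ArithmeticFunction.sigma 1 n : ℕ) : ℝ)|)) ⊆ Finset.range N0 := by
        intro n hn
        rw [Finset.mem_filter] at hn
        rw [Finset.mem_range]
        by_contra hc
        push Not at hc
        have a1 : X k0 ≤ n := (le_max_left _ _).trans hc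
        have a2 : k0 ^ 2 ≤ n := ((le_max_left _ _).trans (le_max_right _ _)).trans hc
        have a3 : 1 ≤ n := ((le_max_right _ _).trans (le_max_right _ _)).trans hc
        have a4 := hge k0 n a1 a2
        have a5 : (k0 : ℝ) ≤ kk n := by exact_mod_cast a4
        have hnr : (0 : ℝ) < n := by exact_mod_cast a3
        have a6 : (n : ℝ) ≤ ((ArithmeticFunction.sigma 1 n : ℕ) : ℝ) := by
          have : n ≤ ArithmeticFunction.sigma 1 n := by
            rw [ArithmeticFunction.sigma_one_apply]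
            exact Finset.single_le_sum (f := fun d => d) (fun _ _ => Nat.zero_le _)
              (Nat.mem_divisors_self n (by omega))
          exact_mod_cast this
        have a7 : |F n / ((ArithmeticFunction.sigma 1 n : ℕ) : ℝ)| ≤ 1 / ((k0 : ℝ) + 1) := by
          rw [abs_of_nonneg (by simp only [hF]; positivity)]
          rw [div_le_iff₀ (by linarith)]
          simp only [hF]
          have b1 : 1 / ((kk n : ℝ) + 1) ≤ 1 / ((k0 : ℝ) + 1) :=
            one_div_le_one_div_of_le (by positivity) (by linarith)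
          exact mul_le_mul b1 a6 hnr.le (by positivity)
        linarith [hn.2]
      have h2 := Finset.card_le_card this
      rw [Finset.card_range] at h2
      exact_mod_cast h2
    refine squeeze_zero (fun N => by positivity)
      (fun N => div_le_div_of_nonneg_right (hsub N) (Nat.cast_nonneg N)) ?_
    exact tendsto_const_div_atTop_nhds_zero_nat (N0 : ℝ)
  obtain ⟨x, hx1, hx2⟩ := h F hFtop hdens 3 (X 0)
  have h1 : X (kk x) ≤ x := Nat.findGreatest_spec (P := fun k => X k ≤ x) (Nat.zero_le _) hx1.le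
  have h2 := hX (kk x) x h1
  have h3 : (3 : ℝ) * (1 / ((kk x : ℝ) + 1)) * x = 3 * F x := by
    simp only [hF]
    ring
  rw [h3] at h2
  exact absurd hx2 (not_lt.2 h2)

end Pool.Agent.H2.Sig
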